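import Pool.Agent.H44.EH.Sca2
import Pool.Agent.H24.EH.Defs
import Pool.Agent.H56.EH.Pos

/-!
# EHP (MP_ff60c2_an, S06849): from `LevelD` (in terms of `Touch`) to S06849

`LevelD`: for `Touch a p` and every `d > 0` the parts of `{|Q| ≤ e^{-nd}}` inside and outside of the circle `|z| = 4p` have
transfinite diameters `≤ p`, `≤ 1 - p`.
`main_of_levelD : LevelD → S06849`.
-/

set_option autoImplicit false

open Polynomial Complex MeasureTheory Set
open scoped Real ComplexConjugate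
open Pool.Agent.H88.LE
open Pool.Agent.H56.EH (Nv Nz)
open Pool.Agent.H24.EH (Touch)

noncomputable section

namespace Pool.Agent.H44.EH

/-- the two bounds at the last touching level -/
def LevelD : Prop :=
  ∀ (n : ℕ) (a : Fin n → ℂ) (p : ℝ), Touch a p → ∀ d : ℝ, 0 < d →
    TD ({z | ‖∏ j, (z - a j)‖ ≤ Real.exp (-(n * d))} ∩ {z | ‖z‖ < 4 * p}) p ∧
    TD ({z | ‖∏ j, (z - a j)‖ ≤ Real.exp (-(n * d))} ∩ {z | 4 * p < ‖z‖}) (1 - p)

theorem scaled_of_levelD (h : LevelD) : Scaled := by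
  intro n s b r₀ hn hs hr0 hr4 hle heq hb4 hprod hin hout
  have hnR : (0 : ℝ) < n := by exact_mod_cast hn
  have hlt : ∀ σ : ℝ, 0 < σ → Real.exp (-(n * σ)) < 1 := by
    intro σ hσ
    rw [Real.exp_lt_one_iff]
    have := mul_pos hnR hσ
    linarith
  have e4 : 4 * (r₀ / 4) = r₀ := by ring
  have hT : Touch b (r₀ / 4) :=
    ⟨hn, by linarith, by linarith, hle, by rw [e4]; exact heq, hb4, hprod.trans_lt (hlt s hs)⟩
  have hL : Pool.Agent.H56.EH.Lev n b s r₀ := ⟨hn, hs, hprod, hle, hr0, hr4, heq, hb4⟩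
  have hc : ∀ z : ℂ, ‖z‖ = r₀ → 1 ≤ ‖∏ j, (z - b j)‖ := by
    intro z hz
    rw [norm_prod]
    exact hL.ge_one z hz
  have hTD := h n b (r₀ / 4) hT
  simp only [e4] at hTD
  have hA : IsOpen {z : ℂ | ‖z‖ < r₀} := isOpen_lt (by fun_prop) (by fun_prop)
  have hB : IsOpen {z : ℂ | r₀ < ‖z‖} := isOpen_lt (by fun_prop) (by fun_prop)
  have hdis : Disjoint {z : ℂ | ‖z‖ < r₀} {z : ℂ | r₀ < ‖z‖} := by
    rw [Set.disjoint_left]
    intro z hz hz'
    exact lt_asymm (show ‖z‖ < r₀ from hz) (show r₀ < ‖z‖ from hz')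
  have hcov : ∀ σ : ℝ, 0 < σ → ∀ z : ℂ, ‖∏ j, (z - b j)‖ ≤ Real.exp (-(n * σ)) →
      ‖z‖ < r₀ ∨ r₀ < ‖z‖ := by
    intro σ hσ z hz
    rcases lt_trichotomy ‖z‖ r₀ with h1 | h1 | h1
    · exact Or.inl h1
    · have h2 := hc z h1
      have h3 := hlt σ hσ
      linarith
    · exact Or.inr h1
  refine ⟨hc, ?_, ?_⟩
  · exact td_down_lim hn b hs hA hB hdis (fun σ hσ z hz => hcov σ hσ z hz) (by positivity) hin
      (fun σ hσ => (hTD σ hσ).1)
  · exact td_down_lim hn b hs hB hA hdis.symm (fun σ hσ z hz => (hcov σ hσ z hz).symm)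
      (by linarith) hout (fun σ hσ => (hTD σ hσ).2)

open N460a421b in
/-- the frozen statement S06849 from `LevelD` -/
theorem main_of_levelD (h : LevelD) (f : ℂ[X]) (hf : f.Monic) (hn0 : f.natDegree ≠ 0) :
    ∃ (ι : Type), Nonempty (BoundedDiscCover {z | ‖f.eval z‖ ≤ 1} 2 ι) :=
  main_of_scaled (scaled_of_levelD h) f hf hn0

end Pool.Agent.H44.EH
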