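import Mathlib
import Pool.Prelude.Def_F_472fcd70

/-!
# EHP (MP_ff60c2_an, S06849): from total radius `ρ > 2` to total radius exactly `2`

* `CovN N S ρ`: `S` has a cover by `N` closed discs (radii `≥ 0`) of total radius at most `ρ`.
* `covN_closed`: if `S` is bounded and `CovN N S ρ` for every `ρ > ρ₀` then `CovN N S ρ₀` (compactness of the parameters).
* `final_cover`: if `f` is monic, nonconstant and `CovN N {|f| ≤ 1} ρ` for every `ρ > 2`, then `{|f| ≤ 1}` has a `BoundedDiscCover`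
  with total radius `2` (the discs of radius `0` are not needed since `{|f| ≤ 1}` has no isolated points).
-/

set_option autoImplicit false

open Polynomial Complex Set Filter Topology

noncomputable section

namespace Pool.Agent.H44.EH

/-- `S` has a cover by `N` closed discs of total radius at most `ρ` -/
def CovN (N : ℕ) (S : Set ℂ) (ρ : ℝ) : Prop :=
  ∃ (M : Fin N → ℂ) (R : Fin N → ℝ), (∀ c, 0 ≤ R c) ∧
    (∀ z ∈ S, ∃ c, ‖z - M c‖ ≤ R c) ∧ ∑ c, R c ≤ ρ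

theorem CovN.mono {N : ℕ} {S : Set ℂ} {ρ ρ' : ℝ} (h : CovN N S ρ) (hρ : ρ ≤ ρ') : CovN N S ρ' := by
  obtain ⟨M, R, h1, h2, h3⟩ := h
  exact ⟨M, R, h1, h2, h3.trans hρ⟩

theorem CovN.subset {N : ℕ} {S T : Set ℂ} {ρ : ℝ} (h : CovN N S ρ) (hT : T ⊆ S) : CovN N T ρ := by
  obtain ⟨M, R, h1, h2, h3⟩ := h
  exact ⟨M, R, h1, fun z hz => h2 z (hT hz), h3⟩

theorem CovN.nonneg {N : ℕ} {S : Set ℂ} {ρ : ℝ} (h : CovN N S ρ) : 0 ≤ ρ := by
  obtain ⟨M, R, h1, h2, h3⟩ := h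
  exact (Finset.sum_nonneg fun c _ => h1 c).trans h3

/-- union of two covers -/
theorem CovN.union {N N' : ℕ} {S T : Set ℂ} {ρ ρ' : ℝ} (h : CovN N S ρ) (h' : CovN N' T ρ') :
    CovN (N + N') (S ∪ T) (ρ + ρ') := by
  obtain ⟨M, R, h1, h2, h3⟩ := h
  obtain ⟨M', R', h1', h2', h3'⟩ := h'
  refine ⟨Fin.append M M', Fin.append R R', ?_, ?_, ?_⟩
  · intro c
    refine Fin.addCases (fun i => ?_) (fun i => ?_) c
    · rw [Fin.append_left]; exact h1 i
    · rw [Fin.append_right]; exact h1' i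
  · rintro z (hz | hz)
    · obtain ⟨c, hc⟩ := h2 z hz
      refine ⟨Fin.castAdd N' c, ?_⟩
      rw [Fin.append_left, Fin.append_left]; exact hc
    · obtain ⟨c, hc⟩ := h2' z hz
      refine ⟨Fin.natAdd N c, ?_⟩
      rw [Fin.append_right, Fin.append_right]; exact hc
  · rw [Fin.sum_univ_add]
    simp only [Fin.append_left, Fin.append_right]
    exact add_le_add h3 h3'

/-- more discs (some of radius `0`) -/
theorem CovN.le {N N' : ℕ} {S : Set ℂ} {ρ : ℝ} (h : CovN N S ρ) (hN : N ≤ N') : CovN N' S ρ := by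
  obtain ⟨k, rfl⟩ := Nat.exists_eq_add_of_le hN
  have h0 : CovN k (∅ : Set ℂ) 0 :=
    ⟨fun _ => 0, fun _ => 0, fun _ => le_rfl, fun z hz => absurd hz (notMem_empty z), by simp⟩
  have := h.union h0
  rwa [union_empty, add_zero] at this

/-- one disc -/
theorem covN_one {S : Set ℂ} {ρ : ℝ} (hρ : 0 ≤ ρ) (m : ℂ) (h : ∀ z ∈ S, ‖z - m‖ ≤ ρ) :
    CovN 1 S ρ :=
  ⟨fun _ => m, fun _ => ρ, fun _ => hρ, fun z hz => ⟨0, h z hz⟩, by simp⟩

/-- image under `z ↦ a z + b` -/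
theorem CovN.affine {N : ℕ} {S : Set ℂ} {ρ : ℝ} (h : CovN N S ρ) (a b : ℂ) :
    CovN N ((fun z => a * z + b) '' S) (‖a‖ * ρ) := by
  obtain ⟨M, R, h1, h2, h3⟩ := h
  refine ⟨fun c => a * M c + b, fun c => ‖a‖ * R c, fun c => mul_nonneg (norm_nonneg _) (h1 c), ?_, ?_⟩
  · rintro _ ⟨z, hz, rfl⟩
    obtain ⟨c, hc⟩ := h2 z hz
    refine ⟨c, ?_⟩
    have : a * z + b - (a * M c + b) = a * (z - M c) := by ring
    simp only [this, norm_mul]
    exact mul_le_mul_of_nonneg_left hc (norm_nonneg _)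
  · rw [← Finset.mul_sum]
    exact mul_le_mul_of_nonneg_left h3 (norm_nonneg _)

/-- the discs can be chosen to meet `S` (or to have radius `0` and centre in `S`) -/
theorem CovN.normalise {N : ℕ} {S : Set ℂ} {ρ : ℝ} (h : CovN N S ρ) {s : ℂ} (hs : s ∈ S) :
    ∃ (M : Fin N → ℂ) (R : Fin N → ℝ), (∀ c, 0 ≤ R c) ∧
      (∀ z ∈ S, ∃ c, ‖z - M c‖ ≤ R c) ∧ ∑ c, R c ≤ ρ ∧ ∀ c, ∃ z ∈ S, ‖z - M c‖ ≤ R c := by
  classical
  obtain ⟨M, R, h1, h2, h3⟩ := h
  refine ⟨fun c => if ∃ z ∈ S, ‖z - M c‖ ≤ R c then M c else s,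
    fun c => if ∃ z ∈ S, ‖z - M c‖ ≤ R c then R c else 0, ?_, ?_, ?_, ?_⟩
  · intro c
    dsimp only
    split_ifs
    · exact h1 c
    · exact le_rfl
  · intro z hz
    obtain ⟨c, hc⟩ := h2 z hz
    refine ⟨c, ?_⟩
    have : ∃ z ∈ S, ‖z - M c‖ ≤ R c := ⟨z, hz, hc⟩
    simp only [if_pos this]
    exact hc
  · refine le_trans (Finset.sum_le_sum fun c _ => ?_) h3
    split_ifs
    · exact le_rfl
    · exact h1 c
  · intro c
    by_cases h : ∃ z ∈ S, ‖z - M c‖ ≤ R c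
    · simp only [if_pos h]
      exact h
    · simp only [if_neg h]
      exact ⟨s, hs, by simp⟩

theorem covN_closed {N : ℕ} {S : Set ℂ} (hS : Bornology.IsBounded S) {ρ₀ : ℝ} (h0 : 0 ≤ ρ₀)
    (h : ∀ ρ, ρ₀ < ρ → CovN N S ρ) : CovN N S ρ₀ := by
  rcases S.eq_empty_or_nonempty with rfl | ⟨s, hs⟩
  · exact ⟨fun _ => 0, fun _ => 0, fun _ => le_rfl, fun z hz => absurd hz (notMem_empty z), by simpa using h0⟩
  obtain ⟨B, hB⟩ := hS.exists_norm_le
  obtain ⟨K, hK⟩ : ∃ K : Set ((Fin N → ℂ) × (Fin N → ℝ)), K =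
      {p | (∀ c, 0 ≤ p.2 c) ∧ (∀ z ∈ S, ∃ c, ‖z - p.1 c‖ ≤ p.2 c) ∧ (∀ c, ‖p.1 c‖ ≤ B + (ρ₀ + 1)) ∧
        (∀ c, p.2 c ≤ ρ₀ + 1)} := ⟨_, rfl⟩
  have hclosed : IsClosed K := by
    have e : K = (⋂ c, {p : (Fin N → ℂ) × (Fin N → ℝ) | 0 ≤ p.2 c}) ∩
        ((⋂ z ∈ S, ⋃ c, {p : (Fin N → ℂ) × (Fin N → ℝ) | ‖z - p.1 c‖ ≤ p.2 c}) ∩
        ((⋂ c, {p : (Fin N → ℂ) × (Fin N → ℝ) | ‖p.1 c‖ ≤ B + (ρ₀ + 1)}) ∩
        (⋂ c, {p : (Fin N → ℂ) × (Fin N → ℝ) | p.2 c ≤ ρ₀ + 1}))) := by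
      rw [hK]
      ext p
      simp only [mem_ofPred_eq, mem_inter_iff, mem_iInter, mem_iUnion]
    rw [e]
    refine IsClosed.inter (isClosed_iInter fun c => isClosed_le (by fun_prop) (by fun_prop)) ?_
    refine IsClosed.inter (isClosed_biInter fun z _ => isClosed_iUnion_of_finite fun c =>
      isClosed_le (by fun_prop) (by fun_prop)) ?_
    exact IsClosed.inter (isClosed_iInter fun c => isClosed_le (by fun_prop) (by fun_prop))
      (isClosed_iInter fun c => isClosed_le (by fun_prop) (by fun_prop))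
  have hbdd : Bornology.IsBounded K := by
    refine (Metric.isBounded_closedBall (x := (0 : (Fin N → ℂ) × (Fin N → ℝ)))
      (r := max (B + (ρ₀ + 1)) (ρ₀ + 1))).subset ?_
    intro p hp
    rw [hK] at hp
    obtain ⟨p1, p2, p3, p4⟩ := hp
    rw [mem_closedBall_zero_iff]
    have hB0 : 0 ≤ max (B + (ρ₀ + 1)) (ρ₀ + 1) := le_max_of_le_right (by linarith)
    refine max_le ?_ ?_
    · rw [pi_norm_le_iff_of_nonneg hB0]
      exact fun c => (p3 c).trans (le_max_left _ _)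
    · rw [pi_norm_le_iff_of_nonneg hB0]
      intro c
      rw [Real.norm_of_nonneg (p1 c)]
      exact (p4 c).trans (le_max_right _ _)
  have hcomp : IsCompact K := Metric.isCompact_of_isClosed_isBounded hclosed hbdd
  -- every `ρ ∈ (ρ₀, ρ₀ + 1]` gives a point of `K`
  have hmem : ∀ ρ, ρ₀ < ρ → ρ ≤ ρ₀ + 1 → ∃ p ∈ K, ∑ c, p.2 c ≤ ρ := by
    intro ρ hρ hρ1
    obtain ⟨M, R, h1, h2, h3, h4⟩ := (h ρ hρ).normalise hs
    have h5 : ∀ c, R c ≤ ρ₀ + 1 := fun c =>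
      (Finset.single_le_sum (fun c _ => h1 c) (Finset.mem_univ c)).trans (h3.trans hρ1)
    refine ⟨(M, R), ?_, h3⟩
    rw [hK]
    refine ⟨h1, h2, fun c => ?_, h5⟩
    obtain ⟨z, hz, hzc⟩ := h4 c
    have h6 : ‖M c‖ ≤ ‖z‖ + ‖z - M c‖ := by
      have := norm_sub_le z (z - M c)
      simpa using this
    have h7 := hB z hz
    have h8 := h5 c
    change ‖M c‖ ≤ _
    linarith
  obtain ⟨p0, hp0, -⟩ := hmem (ρ₀ + 1) (by linarith) le_rfl
  obtain ⟨p, hp, hmin⟩ := hcomp.exists_isMinOn ⟨p0, hp0⟩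
    (f := fun p : (Fin N → ℂ) × (Fin N → ℝ) => ∑ c, p.2 c) (by fun_prop)
  refine ⟨p.1, p.2, ?_, ?_, ?_⟩
  · rw [hK] at hp
    exact hp.1
  · rw [hK] at hp
    exact hp.2.1
  · refine le_of_forall_gt_imp_ge_of_dense ?_
    intro ρ hρ
    obtain ⟨q, hq, hq1⟩ := hmem (min ρ (ρ₀ + 1)) (lt_min hρ (by linarith)) (min_le_right _ _)
    exact (hmin hq).trans (hq1.trans (min_le_left _ _))

/-- near every point of `{|f| ≤ 1}` there are points with `|f| < 1` -/
theorem lem_accum {f : ℂ[X]} (hf : f.natDegree ≠ 0) {z : ℂ} (hz : ‖f.eval z‖ ≤ 1) {U : Set ℂ}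
    (hU : IsOpen U) (hzU : z ∈ U) : ∃ w ∈ U, ‖f.eval w‖ < 1 := by
  have han : AnalyticOnNhd ℂ (fun z => f.eval z) univ := by
    intro w _
    exact (f.differentiable.differentiableOn.analyticAt (by simp : univ ∈ 𝓝 w))
  rcases (han z (mem_univ z)).eventually_constant_or_nhds_le_map_nhds with hc | ho
  · exfalso
    have h1 : EqOn (fun z => f.eval z) (fun _ => f.eval z) univ :=
      han.eqOn_of_preconnected_of_eventuallyEq (fun w _ => analyticAt_const) isPreconnected_univ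
        (mem_univ z) hc
    have h2 : f = C (f.eval z) := Polynomial.funext fun w => by
      rw [eval_C]
      exact h1 (mem_univ w)
    exact hf (by rw [h2, natDegree_C])
  · have h1 : (fun z => f.eval z) '' U ∈ 𝓝 (f.eval z) := by
      refine ho ?_
      rw [mem_map]
      exact mem_of_superset (hU.mem_nhds hzU) (subset_preimage_image _ _)
    by_cases hlt : ‖f.eval z‖ < 1
    · exact ⟨z, hzU, hlt⟩
    have h1' : ‖f.eval z‖ = 1 := le_antisymm hz (not_lt.1 hlt)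
    obtain ⟨ε, hε, hball⟩ := Metric.mem_nhds_iff.1 h1
    -- the point `(1 - t) f z`
    obtain ⟨t, ht0, ht1, htε⟩ : ∃ t : ℝ, 0 < t ∧ t < 1 ∧ t < ε := by
      refine ⟨min (1 / 2) (ε / 2), lt_min (by norm_num) (by linarith),
        lt_of_le_of_lt (min_le_left _ _) (by norm_num), lt_of_le_of_lt (min_le_right _ _) (by linarith)⟩
    have h2 : ((1 - t : ℝ) : ℂ) * f.eval z ∈ Metric.ball (f.eval z) ε := by
      rw [Metric.mem_ball, dist_eq_norm]
      have : ((1 - t : ℝ) : ℂ) * f.eval z - f.eval z = -((t : ℝ) : ℂ) * f.eval z := by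
        push_cast; ring
      rw [this, norm_mul, norm_neg, Complex.norm_real, Real.norm_of_nonneg ht0.le, h1', mul_one]
      exact htε
    obtain ⟨w, hw, hw2⟩ := hball h2
    refine ⟨w, hw, ?_⟩
    have hw3 : f.eval w = ((1 - t : ℝ) : ℂ) * f.eval z := hw2
    rw [hw3, norm_mul, Complex.norm_real, Real.norm_of_nonneg (by linarith), h1', mul_one]
    linarith

/-- a nonempty open subset of `ℂ` is infinite -/
theorem open_infinite {U : Set ℂ} (hU : IsOpen U) (hne : U.Nonempty) : U.Infinite := by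
  obtain ⟨x, hx⟩ := hne
  exact infinite_of_mem_nhds x (hU.mem_nhds hx)

open N460a421b in
theorem final_cover {f : ℂ[X]} (_hf : f.Monic) (hn0 : f.natDegree ≠ 0) {N : ℕ}
    (h : ∀ ρ, (2 : ℝ) < ρ → CovN N {z | ‖f.eval z‖ ≤ 1} ρ) :
    ∃ (ι : Type), Nonempty (BoundedDiscCover {z | ‖f.eval z‖ ≤ 1} 2 ι) := by
  -- the lemniscate is bounded
  have hb : Bornology.IsBounded {z : ℂ | ‖f.eval z‖ ≤ 1} := by
    obtain ⟨M, R, h1, h2, -⟩ := h 3 (by norm_num)
    refine (Bornology.isBounded_iUnion.2 fun c : Fin N =>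
      Metric.isBounded_closedBall (x := M c) (r := R c)).subset ?_
    intro z hz
    obtain ⟨c, hc⟩ := h2 z hz
    refine mem_iUnion.2 ⟨c, ?_⟩
    rw [Metric.mem_closedBall, dist_eq_norm]
    exact hc
  obtain ⟨M, R, h1, h2, h3⟩ := covN_closed hb (by norm_num : (0 : ℝ) ≤ 2) h
  refine ⟨{c : Fin N // 0 < R c}, ⟨⟨fun c => M c.1, fun c => R c.1, ?_, ?_, ?_, fun c => c.2⟩⟩⟩
  · intro z hz
    by_contra hnot
    have hF : IsClosed (⋃ c : {c : Fin N // 0 < R c}, Metric.closedBall (M c.1) (R c.1)) :=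
      isClosed_iUnion_of_finite fun c => Metric.isClosed_closedBall
    obtain ⟨w, hw, hw1⟩ := lem_accum hn0 hz hF.isOpen_compl hnot
    -- the open set `{|f| < 1} \ F`
    have hV : IsOpen ((⋃ c : {c : Fin N // 0 < R c}, Metric.closedBall (M c.1) (R c.1))ᶜ ∩
        {z | ‖f.eval z‖ < 1}) :=
      hF.isOpen_compl.inter (isOpen_lt (f.continuous.norm) continuous_const)
    refine open_infinite hV ⟨w, hw, hw1⟩ ((finite_range M).subset ?_)
    rintro x ⟨hx1, hx2⟩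
    have hx3 : ‖f.eval x‖ < 1 := hx2
    obtain ⟨c, hc⟩ := h2 x (show ‖f.eval x‖ ≤ 1 from hx3.le)
    rcases (h1 c).eq_or_lt with h0 | h0
    · refine ⟨c, ?_⟩
      rw [← h0] at hc
      exact (sub_eq_zero.1 (norm_le_zero_iff.1 hc)).symm
    · refine absurd (mem_iUnion.2 ⟨⟨c, h0⟩, ?_⟩) hx1
      rw [Metric.mem_closedBall, dist_eq_norm]
      exact hc
  · exact (hasSum_fintype _).summable
  · rw [tsum_fintype]
    refine le_trans ?_ h3
    have e : ∑ c : {c : Fin N // 0 < R c}, R c.1 = ∑ c ∈ Finset.univ.filter (fun c => 0 < R c), R c := by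
      rw [Finset.sum_filter, ← Finset.sum_filter]
      exact (Finset.sum_subtype _ (by simp) _).symm
    rw [e]
    exact Finset.sum_le_sum_of_subset_of_nonneg (Finset.filter_subset _ _) fun c _ _ => h1 c

end Pool.Agent.H44.EH
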