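import Pool.Agent.H88.LE.KB
import Pool.Agent.H44.EH.Fin

/-!
# EHP (MP_ff60c2_an, S06849): reduction to the dichotomy

`PartPoly K c`: there is a monic polynomial `q` with all its zeros in `K` and `|q| ≤ c ^ deg q` on `K` (capacity of `K` at most `c`).

`Dich f`: either `{|f| ≤ 1}` lies in one disc of radius `2`, or it is separated by two open sets `O`, `O'`, both containing
zeros of `f`, such that the two parts have capacities `≤ p` and `≤ 1 - p`.

`main_of_dich`: if `Dich f` holds for all monic nonconstant `f` then S06849 holds.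

The proof is by induction on the number of components, like `Pool/Agent/H88/LE/IB.lean` (the scaling lemmas are copied from there).
-/

set_option autoImplicit false

open Polynomial Complex MeasureTheory Set
open scoped Real ComplexConjugate
open Pool.Agent.H88.LE

noncomputable section

namespace Pool.Agent.H44.EH

/-- a monic polynomial with zeros in `K` and small on `K` -/
def PartPoly (K : Set ℂ) (c : ℝ) : Prop :=
  ∃ q : ℂ[X], q.Monic ∧ q.natDegree ≠ 0 ∧ (∀ a, q.eval a = 0 → a ∈ K) ∧ K ⊆ lem q (c ^ q.natDegree)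

/-- one disc of radius `2`, or a split with capacities `p`, `1 - p` -/
def Dich (f : ℂ[X]) : Prop :=
  (∃ m : ℂ, ∀ z ∈ lem f 1, ‖z - m‖ ≤ 2) ∨
  ∃ (O O' : Set ℂ) (p : ℝ), 0 < p ∧ p < 1 ∧ Sep f 1 O O' ∧ 0 < nz f O ∧ 0 < nz f O' ∧
    (∀ c, p < c → PartPoly (lem f 1 ∩ O) c) ∧ (∀ c, 1 - p < c → PartPoly (lem f 1 ∩ O') c)

private theorem red_lem_scale (p : ℂ[X]) (c : ℝ) (hc : 0 < c) :
    lem (C (((c : ℂ) ^ p.natDegree)⁻¹) * p.comp (C (c : ℂ) * X)) 1 =
      (fun z => ((c⁻¹ : ℝ) : ℂ) * z) '' lem p (c ^ p.natDegree) := by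
  have hcC : (c : ℂ) ≠ 0 := by exact_mod_cast hc.ne'
  have hpow : (0 : ℝ) < c ^ p.natDegree := pow_pos hc _
  have key : ∀ z : ℂ, ‖(C (((c : ℂ) ^ p.natDegree)⁻¹) * p.comp (C (c : ℂ) * X)).eval z‖ ≤ 1 ↔
      ‖p.eval ((c : ℂ) * z)‖ ≤ c ^ p.natDegree := by
    intro z
    rw [eval_mul, eval_C, eval_comp, eval_mul, eval_C, eval_X, norm_mul, norm_inv, norm_pow,
      Complex.norm_real, Real.norm_of_nonneg hc.le, inv_mul_le_iff₀ hpow, mul_one]
  ext z
  constructor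
  · intro hz
    refine ⟨(c : ℂ) * z, (key z).1 hz, ?_⟩
    push_cast
    field_simp
  · rintro ⟨y, hy, rfl⟩
    refine (key _).2 ?_
    have h1 : (c : ℂ) * (((c⁻¹ : ℝ) : ℂ) * y) = y := by
      push_cast
      field_simp
    rw [h1]
    exact hy

private theorem red_natDegree (p : ℂ[X]) (c : ℝ) (hc : 0 < c) :
    (p.comp (C (c : ℂ) * X)).natDegree = p.natDegree := by
  have hcC : (c : ℂ) ≠ 0 := by exact_mod_cast hc.ne'
  rw [natDegree_comp, natDegree_C_mul_X _ hcC, mul_one]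

private theorem red_monic {p : ℂ[X]} (hp : p.Monic) (c : ℝ) (hc : 0 < c) :
    (C (((c : ℂ) ^ p.natDegree)⁻¹) * p.comp (C (c : ℂ) * X)).Monic := by
  have hcC : (c : ℂ) ≠ 0 := by exact_mod_cast hc.ne'
  have h1 : (p.comp (C (c : ℂ) * X)).leadingCoeff = (c : ℂ) ^ p.natDegree := by
    rw [leadingCoeff_comp, hp.leadingCoeff, one_mul, leadingCoeff_C_mul_X]
    rw [natDegree_C_mul_X _ hcC]
    exact one_ne_zero
  rw [Monic, leadingCoeff_mul, leadingCoeff_C, h1, inv_mul_cancel₀]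
  exact pow_ne_zero _ hcC

/-- the induction statement -/
def GoodN (N : ℕ) : Prop :=
  ∀ f : ℂ[X], f.Monic → f.natDegree ≠ 0 → ConnCov N (lem f 1) → ∀ ρ, 2 < ρ → CovN (2 ^ N) (lem f 1) ρ

theorem scaledN {N : ℕ} (hG : GoodN N) {p : ℂ[X]} (hp : p.Monic) (hn0 : p.natDegree ≠ 0) (c : ℝ)
    (hc : 0 < c) (hN : ConnCov N (lem p (c ^ p.natDegree))) (ρ : ℝ) (hρ : 2 * c < ρ) :
    CovN (2 ^ N) (lem p (c ^ p.natDegree)) ρ := by
  have hcC : (c : ℂ) ≠ 0 := by exact_mod_cast hc.ne'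
  have hl := red_lem_scale p c hc
  have hm := red_monic hp c hc
  have hd : (C (((c : ℂ) ^ p.natDegree)⁻¹) * p.comp (C (c : ℂ) * X)).natDegree ≠ 0 := by
    rw [natDegree_C_mul (inv_ne_zero (pow_ne_zero _ hcC)), red_natDegree p c hc]
    exact hn0
  have hcov : ConnCov N (lem (C (((c : ℂ) ^ p.natDegree)⁻¹) * p.comp (C (c : ℂ) * X)) 1) := by
    rw [hl]
    exact connCov_scale hN _
  have hρ' : 2 < ρ / c := by rwa [lt_div_iff₀ hc]
  have h1 := hG _ hm hd hcov (ρ / c) hρ'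
  have h2 := h1.affine (c : ℂ) 0
  rw [hl, image_image, Complex.norm_real, Real.norm_of_nonneg hc.le, mul_div_cancel₀ _ hc.ne'] at h2
  refine h2.subset ?_
  intro z hz
  refine ⟨z, hz, ?_⟩
  push_cast
  field_simp
  ring

theorem part_covN {N : ℕ} (hG : ∀ N' < N, GoodN N') {f : ℂ[X]} (hN : ConnCov N (lem f 1))
    {O O' : Set ℂ} (hS : Sep f 1 O O') (hk' : 0 < nz f O') {c : ℝ} (hc : 0 < c)
    (hP : PartPoly (lem f 1 ∩ O) c) (ρ : ℝ) (hρ : 2 * c < ρ) :
    CovN (2 ^ (N - 1)) (lem f 1 ∩ O) ρ := by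
  obtain ⟨N', hN', hcc⟩ := connCov_part le_rfl hS hk' hN
  obtain ⟨q, hq, hd, hz, hsub⟩ := hP
  have h3 : ConnCov N' (lem q (c ^ q.natDegree)) := connCov_poly hq hd _ _ hz hsub hcc
  exact ((scaledN (hG N' hN') hq hd c hc h3 ρ hρ).subset hsub).le
    (Nat.pow_le_pow_right (by norm_num) (by omega))

theorem goodN_all (hD : ∀ f : ℂ[X], f.Monic → f.natDegree ≠ 0 → Dich f) : ∀ N, GoodN N := by
  intro N
  induction N using Nat.strong_induction_on with
  | _ N ih =>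
    intro f hf hn0 hN ρ hρ
    rcases hD f hf hn0 with ⟨m, hm⟩ | ⟨O, O', p, hp0, hp1, hS, hk, hk', hA, hB⟩
    · exact ((covN_one (by norm_num : (0 : ℝ) ≤ 2) m hm).mono hρ.le).le Nat.one_le_two_pow
    · have hN0 : 0 < N := by
        obtain ⟨N', hN', -⟩ := connCov_part le_rfl hS hk' hN
        omega
      obtain ⟨δ, hδ⟩ : ∃ δ : ℝ, δ = (ρ - 2) / 4 := ⟨_, rfl⟩
      have hδ0 : 0 < δ := by rw [hδ]; linarith
      have h1 := part_covN ih hN hS hk' (c := p + δ / 2) (by linarith) (hA _ (by linarith))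
        (2 * p + 2 * δ) (by linarith)
      have h2 := part_covN ih hN hS.symm hk (c := 1 - p + δ / 2) (by linarith) (hB _ (by linarith))
        (2 * (1 - p) + 2 * δ) (by linarith)
      have h3 := h1.union h2
      have e1 : 2 ^ (N - 1) + 2 ^ (N - 1) = 2 ^ N := by
        obtain ⟨k, rfl⟩ : ∃ k, N = k + 1 := ⟨N - 1, by omega⟩
        rw [Nat.add_sub_cancel, pow_succ]
        ring
      have e2 : 2 * p + 2 * δ + (2 * (1 - p) + 2 * δ) = ρ := by
        rw [hδ]
        ring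
      rw [e1, e2] at h3
      refine h3.subset ?_
      intro z hz
      rcases hS.cover hz with h | h
      · exact Or.inl ⟨hz, h⟩
      · exact Or.inr ⟨hz, h⟩

open N460a421b in
theorem main_of_dich (hD : ∀ f : ℂ[X], f.Monic → f.natDegree ≠ 0 → Dich f) (f : ℂ[X])
    (hf : f.Monic) (hn0 : f.natDegree ≠ 0) :
    ∃ (ι : Type), Nonempty (BoundedDiscCover {z | ‖f.eval z‖ ≤ 1} 2 ι) :=
  final_cover hf hn0 (N := 2 ^ f.natDegree) fun ρ hρ =>
    goodN_all hD f.natDegree f hf hn0 (connCov_lem hf hn0 1 zero_le_one) ρ hρ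

end Pool.Agent.H44.EH
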