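import Pool.Agent.H88.LE.CDa
import Pool.Agent.H44.EH.Red

/-!
# EHP (MP_ff60c2_an, S06849): from the circle theorem to S06849

`TD K d`: the transfinite diameter of `K` is at most `d` (Vandermonde form).
`CircleThm`: if `|f e| ≤ 1` and the distance of `e` to the centroid of the zeros is `> 2`, then some circle about `e` separates
`{|f| ≤ 1}` into two parts, both containing zeros, of transfinite diameter `≤ p`, `≤ 1 - p` for some `0 < p < 1`.
`main_of_circle : CircleThm → S06849`.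
-/

set_option autoImplicit false

open Polynomial Complex MeasureTheory Set
open scoped Real ComplexConjugate
open Pool.Agent.H88.LE

noncomputable section

namespace Pool.Agent.H44.EH

/-- the transfinite diameter of `K` is at most `d` -/
def TD (K : Set ℂ) (d : ℝ) : Prop :=
  ∀ c, d < c → ∃ k : ℕ, 0 < k ∧ ∀ z : Fin k → ℂ, (∀ i, z i ∈ K) →
    ‖(Matrix.vandermonde z).det‖ < c ^ ((k : ℝ) * (k - 1) / 2)

/-- the centroid of the zeros -/
def cent (f : ℂ[X]) : ℂ := f.roots.sum / f.natDegree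

/-- the circle theorem (`r = 4 p e ^ s` with the level `s ≥ 0` of the last touching, so `r` and `4 p` are different) -/
def CircleThm : Prop :=
  ∀ (f : ℂ[X]) (e : ℂ), f.Monic → f.natDegree ≠ 0 → ‖f.eval e‖ ≤ 1 → 2 < ‖e - cent f‖ →
    ∃ r p : ℝ, 0 < r ∧ 0 < p ∧ p < 1 ∧ (∀ z, ‖z - e‖ = r → 1 < ‖f.eval z‖) ∧
      (∃ a, f.eval a = 0 ∧ ‖a - e‖ < r) ∧ (∃ a, f.eval a = 0 ∧ r < ‖a - e‖) ∧
      TD (lem f 1 ∩ {z | ‖z - e‖ < r}) p ∧ TD (lem f 1 ∩ {z | r < ‖z - e‖}) (1 - p)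

theorem nz_pos {f : ℂ[X]} (hf : f.Monic) {O : Set ℂ} {a : ℂ} (ha : f.eval a = 0) (hO : a ∈ O) :
    0 < nz f O := by
  classical
  unfold nz
  rw [Multiset.card_pos_iff_exists_mem]
  refine ⟨a, ?_⟩
  rw [Multiset.mem_filter]
  exact ⟨(mem_roots hf.ne_zero).2 ha, hO⟩

theorem partPoly_of_TD {K : Set ℂ} (hK : IsCompact K) (hne : K.Nonempty) {d c : ℝ} (hd : 0 < d)
    (hT : TD K d) (hc : d < c) : PartPoly K c := by
  obtain ⟨k, hk, hV⟩ := hT c hc
  obtain ⟨N, hN, z, hz, hzb⟩ := fekete K hK hne c (hd.trans hc) k hk hV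
  have hdeg : (∏ i, (X - C (z i))).natDegree = N := by
    rw [natDegree_prod_of_monic _ _ fun i _ => monic_X_sub_C (z i)]
    simp
  refine ⟨∏ i, (X - C (z i)), monic_prod_of_monic _ _ fun i _ => monic_X_sub_C (z i), ?_, ?_, ?_⟩
  · rw [hdeg]
    omega
  · intro a ha
    rw [eval_prod, Finset.prod_eq_zero_iff] at ha
    obtain ⟨i, _, hi⟩ := ha
    rw [eval_sub, eval_X, eval_C, sub_eq_zero] at hi
    rw [hi]
    exact hz i
  · intro x hx
    change ‖(∏ i, (X - C (z i))).eval x‖ ≤ c ^ (∏ i, (X - C (z i))).natDegree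
    rw [hdeg, eval_prod, norm_prod]
    refine le_trans (le_of_eq ?_) (hzb x hx)
    refine Finset.prod_congr rfl fun i _ => ?_
    rw [eval_sub, eval_X, eval_C]

theorem dich_of_circle (h : CircleThm) (f : ℂ[X]) (hf : f.Monic) (hn0 : f.natDegree ≠ 0) :
    Dich f := by
  by_cases hall : ∀ z ∈ lem f 1, ‖z - cent f‖ ≤ 2
  · exact Or.inl ⟨_, hall⟩
  right
  push Not at hall
  obtain ⟨e, he, he2⟩ := hall
  obtain ⟨r, p, hr0, hp0, hp1, hcirc, ⟨a, ha, ha'⟩, ⟨b, hb, hb'⟩, hA, hB⟩ := h f e hf hn0 he he2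
  have hS : Sep f 1 {z | ‖z - e‖ < r} {z | r < ‖z - e‖} := by
    refine ⟨isOpen_lt (by fun_prop) (by fun_prop), isOpen_lt (by fun_prop) (by fun_prop), ?_, ?_⟩
    · rw [Set.disjoint_left]
      intro z hz hz'
      exact lt_asymm (show ‖z - e‖ < r from hz) (show r < ‖z - e‖ from hz')
    · intro z hz
      rcases lt_trichotomy ‖z - e‖ r with h1 | h1 | h1
      · exact Or.inl h1
      · exact absurd (show ‖f.eval z‖ ≤ 1 from hz) (not_le.2 (hcirc z h1))
      · exact Or.inr h1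
  have ha1 : ‖f.eval a‖ ≤ 1 := by rw [ha]; simp
  have hb1 : ‖f.eval b‖ ≤ 1 := by rw [hb]; simp
  refine ⟨_, _, p, hp0, hp1, hS, nz_pos hf ha ha', nz_pos hf hb hb', ?_, ?_⟩
  · intro c hc
    exact partPoly_of_TD (part_compact hf hn0 le_rfl hS) ⟨a, ha1, ha'⟩ (by linarith) hA hc
  · intro c hc
    exact partPoly_of_TD (part_compact hf hn0 le_rfl hS.symm) ⟨b, hb1, hb'⟩ (by linarith) hB hc

open N460a421b in
/-- the frozen statement S06849 from the circle theorem -/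
theorem main_of_circle (h : CircleThm) (f : ℂ[X]) (hf : f.Monic) (hn0 : f.natDegree ≠ 0) :
    ∃ (ι : Type), Nonempty (BoundedDiscCover {z | ‖f.eval z‖ ≤ 1} 2 ι) :=
  main_of_dich (dich_of_circle h) f hf hn0

end Pool.Agent.H44.EH
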