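import Pool.Agent.H44.EH.Circ
import Pool.Agent.H56.EH.L3
import Pool.Agent.H75.EH.L1

/-!
# EHP (MP_ff60c2_an, S06849): the circle theorem from its scaled form

`Scaled`: the statement at the last touching level (`b j = e^{-s} (a j - e)`).
`circle_of_scaled : Scaled → CircleThm`.
`main_of_scaled : Scaled → S06849`.
-/

set_option autoImplicit false

open Polynomial Complex MeasureTheory Set
open scoped Real ComplexConjugate
open Pool.Agent.H88.LE
open Pool.Agent.H56.EH (Nv Nz)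

noncomputable section

namespace Pool.Agent.H44.EH

/-! ### the list of the zeros -/

theorem multiset_fin {α : Type*} (s : Multiset α) : ∃ a : Fin (Multiset.card s) → α,
    s = (Finset.univ : Finset (Fin (Multiset.card s))).val.map a := by
  induction s using Quotient.inductionOn with
  | _ l =>
    refine ⟨fun j => l.get j, ?_⟩
    have h : (Finset.univ : Finset (Fin l.length)).val.map (fun j => l.get j) = (l : Multiset α) := by
      rw [Fin.univ_val_map]
      rw [List.ofFn_get]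
    exact h.symm

theorem roots_list {f : ℂ[X]} (hf : f.Monic) : ∃ a : Fin f.natDegree → ℂ,
    f = ∏ j, (X - C (a j)) ∧ f.roots = (Finset.univ : Finset (Fin f.natDegree)).val.map a := by
  have hcard : Multiset.card f.roots = f.natDegree := IsAlgClosed.card_roots_eq_natDegree
  obtain ⟨a, ha⟩ := multiset_fin f.roots
  have key : ∀ n : ℕ, Multiset.card f.roots = n → ∃ a : Fin n → ℂ,
      f.roots = (Finset.univ : Finset (Fin n)).val.map a := by
    rintro n rfl
    exact ⟨a, ha⟩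
  obtain ⟨a, ha⟩ := key _ hcard
  refine ⟨a, ?_, ha⟩
  have h1 : (f.roots.map (fun a => X - C a)).prod = f :=
    prod_multiset_X_sub_C_of_monic_of_roots_card_eq hf hcard
  refine h1.symm.trans ?_
  rw [ha, Multiset.map_map]
  rfl

theorem sum_roots {f : ℂ[X]} {n : ℕ} {a : Fin n → ℂ}
    (ha : f.roots = (Finset.univ : Finset (Fin n)).val.map a) (g : ℂ → ℝ) :
    (f.roots.map g).sum = ∑ j, g (a j) := by
  rw [ha, Multiset.map_map]
  rfl

theorem eval_roots {f : ℂ[X]} {n : ℕ} {a : Fin n → ℂ} (ha : f = ∏ j, (X - C (a j))) (z : ℂ) :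
    f.eval z = ∏ j, (z - a j) := by
  rw [ha, eval_prod]
  refine Finset.prod_congr rfl fun j _ => ?_
  rw [eval_sub, eval_X, eval_C]

/-! ### the last touching level -/

theorem level {f : ℂ[X]} (hf : f.Monic) (hn0 : f.natDegree ≠ 0) {e : ℂ} (he : ‖f.eval e‖ ≤ 1)
    (h2 : 2 < ‖e - cent f‖) :
    ∃ (s : ℝ) (b : Fin f.natDegree → ℂ) (r₀ : ℝ), 0 < s ∧ 0 < r₀ ∧ r₀ < 4 ∧
      (∀ r, 0 < r → Nz b r ≤ Nv r) ∧ Nz b r₀ = Nv r₀ ∧ (∀ j, ‖b j‖ < 4) ∧
      ∏ j, ‖b j‖ ≤ Real.exp (-(f.natDegree * s)) ∧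
      (∀ z : ℂ, ‖f.eval (e + (Real.exp s : ℂ) * z)‖ = Real.exp (f.natDegree * s) * ‖∏ j, (z - b j)‖) ∧
      (∃ j, ‖b j‖ < r₀) ∧ (∃ j, r₀ < ‖b j‖) := by
  have hn : 0 < f.natDegree := Nat.pos_of_ne_zero hn0
  have hnR : (0 : ℝ) < f.natDegree := by exact_mod_cast hn
  obtain ⟨a, hfa, hra⟩ := roots_list hf
  obtain ⟨a', ha'⟩ : ∃ a' : Fin f.natDegree → ℂ, a' = fun j => a j - e := ⟨_, rfl⟩
  have hNN : ∀ r, Pool.Agent.H75.EH.NN f e r = Nz a' r := by
    intro r
    unfold Pool.Agent.H75.EH.NN Nz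
    rw [sum_roots hra, ha']
  have hprod : ∏ j, ‖a' j‖ = ‖f.eval e‖ := by
    rw [eval_roots hfa, norm_prod, ha']
    refine Finset.prod_congr rfl fun j _ => ?_
    exact norm_sub_rev _ _
  have hbad : ∃ r : ℝ, 0 < r ∧ Nv r < Nz a' r := by
    by_contra hno
    push Not at hno
    have h3 : ‖e - Pool.Agent.H75.EH.cen f‖ ≤ 2 := by
      refine Pool.Agent.H75.EH.one_disc hn0 e fun r hr => ?_
      rw [hNN]
      exact hno r hr
    exact absurd h3 (not_le.2 h2)
  obtain ⟨s, hs, hle, ⟨r₀, hr0, hr4, heq⟩, h4⟩ :=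
    Pool.Agent.H56.EH.last_level hn a' (hprod.le.trans he) hbad
  obtain ⟨b, hb⟩ : ∃ b : Fin f.natDegree → ℂ, b = fun j => (Real.exp (-s) : ℂ) * a' j := ⟨_, rfl⟩
  have hNb : ∀ r, 0 < r → Nz b r = Nz a' (r * Real.exp s) - s := by
    intro r hr
    rw [hb]
    exact Pool.Agent.H56.EH.Nz_scale hn a' s hr
  have hnb : ∀ j, ‖b j‖ = Real.exp (-s) * ‖a' j‖ := by
    intro j
    rw [hb]
    simp only [norm_mul, Complex.norm_real, Real.norm_of_nonneg (Real.exp_pos _).le]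
  have hprodb : ∏ j, ‖b j‖ ≤ Real.exp (-(f.natDegree * s)) := by
    simp only [hnb]
    rw [Finset.prod_mul_distrib, Finset.prod_const, Finset.card_univ, Fintype.card_fin, hprod,
      ← Real.exp_nat_mul]
    have : (f.natDegree : ℝ) * -s = -(f.natDegree * s) := by ring
    rw [this]
    exact mul_le_of_le_one_right (Real.exp_pos _).le he
  have hNv0 : Nz b r₀ = Nv r₀ := by rw [hNb r₀ hr0, heq]
  refine ⟨s, b, r₀, hs, hr0, hr4, fun r hr => ?_, hNv0, fun j => ?_, hprodb, fun z => ?_, ?_, ?_⟩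
  · rw [hNb r hr]
    exact hle r hr
  · rw [hnb j, mul_comm]
    exact h4 j
  · rw [eval_roots hfa, norm_prod, norm_prod, Real.exp_nat_mul]
    have e1 : Real.exp s ^ f.natDegree = ∏ _j : Fin f.natDegree, Real.exp s := by simp
    rw [e1, ← Finset.prod_mul_distrib]
    refine Finset.prod_congr rfl fun j _ => ?_
    have e2 : e + (Real.exp s : ℂ) * z - a j = (Real.exp s : ℂ) * (z - b j) := by
      have e3 : (Real.exp s : ℂ) * (Real.exp (-s) : ℂ) = 1 := by
        rw [← Complex.ofReal_mul, ← Real.exp_add]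
        simp
      rw [hb, ha']
      calc e + (Real.exp s : ℂ) * z - a j = (Real.exp s : ℂ) * z - 1 * (a j - e) := by ring
        _ = (Real.exp s : ℂ) * z - ((Real.exp s : ℂ) * (Real.exp (-s) : ℂ)) * (a j - e) := by rw [e3]
        _ = _ := by ring
    rw [e2, norm_mul, Complex.norm_real, Real.norm_of_nonneg (Real.exp_pos _).le]
  · by_contra hno
    push Not at hno
    have hpos : ∀ j, 0 < ‖b j‖ := fun j => hr0.trans_le (hno j)
    have h5 : Nz b r₀ = (1 / (f.natDegree : ℝ)) * Real.log (∏ j, ‖b j‖) := by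
      unfold Nz
      congr 1
      rw [Real.log_prod fun j _ => (hpos j).ne']
      refine Finset.sum_congr rfl fun j _ => ?_
      rw [max_eq_right (hno j)]
    have h6 : Real.log (∏ j, ‖b j‖) ≤ -(f.natDegree * s) := by
      rw [Real.log_le_iff_le_exp (Finset.prod_pos fun j _ => hpos j)]
      exact hprodb
    have h7 := Pool.Agent.H56.EH.Nv_nonneg hr0
    have h8 : (1 / (f.natDegree : ℝ)) * Real.log (∏ j, ‖b j‖) < 0 := by
      refine mul_neg_of_pos_of_neg (by positivity) ?_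
      have : 0 < (f.natDegree : ℝ) * s := mul_pos hnR hs
      linarith
    linarith [h5, hNv0]
  · by_contra hno
    push Not at hno
    have h5 := Pool.Agent.H56.EH.Nz_eq_log hn b hno
    have h6 := Pool.Agent.H56.EH.log_lt_Nv hr0 hr4
    linarith

/-! ### transfinite diameters -/

theorem TD.mono {K K' : Set ℂ} {d d' : ℝ} (h : TD K' d) (hK : K ⊆ K') (hd : d ≤ d') : TD K d' := by
  intro c hc
  obtain ⟨k, hk, hV⟩ := h c (hd.trans_lt hc)
  exact ⟨k, hk, fun z hz => hV z fun i => hK (hz i)⟩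

theorem TD_of_forall_gt {K : Set ℂ} {d : ℝ} (h : ∀ d', d < d' → TD K d') : TD K d := by
  intro c hc
  obtain ⟨d', h1, h2⟩ := exists_between hc
  exact h d' h1 c h2

theorem card_pairs (k : ℕ) : ((∑ i : Fin k, (Finset.Ioi i).card : ℕ) : ℝ) = (k : ℝ) * (k - 1) / 2 := by
  induction k with
  | zero => simp
  | succ k ih =>
    have h0 : ∀ n : ℕ, ∀ i : Fin n, (Finset.Ioi i).card = n - 1 - i := fun n i => by
      simp [Fin.card_Ioi]
    have h1 : ∀ n : ℕ, (∑ i : Fin n, (Finset.Ioi i).card) = ∑ i ∈ Finset.range n, (n - 1 - i) := by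
      intro n
      rw [Finset.sum_range]
      exact Finset.sum_congr rfl fun i _ => h0 n i
    rw [h1] at ih ⊢
    rw [Finset.sum_range_succ']
    have h2 : ∑ i ∈ Finset.range k, (k + 1 - 1 - (i + 1)) = ∑ i ∈ Finset.range k, (k - 1 - i) :=
      Finset.sum_congr rfl fun i _ => by omega
    rw [h2]
    push_cast
    push_cast at ih
    rw [ih]
    simp only [Nat.sub_zero]
    ring

theorem norm_det_vandermonde_affine {k : ℕ} (w : Fin k → ℂ) (e l : ℂ) :
    ‖(Matrix.vandermonde fun i => e + l * w i).det‖ =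
      ‖l‖ ^ ((k : ℝ) * (k - 1) / 2) * ‖(Matrix.vandermonde w).det‖ := by
  rw [← card_pairs, Real.rpow_natCast, Matrix.det_vandermonde, Matrix.det_vandermonde, norm_prod,
    norm_prod, ← Finset.prod_pow_eq_pow_sum, ← Finset.prod_mul_distrib]
  refine Finset.prod_congr rfl fun i _ => ?_
  rw [norm_prod, norm_prod, ← Finset.prod_const, ← Finset.prod_mul_distrib]
  refine Finset.prod_congr rfl fun j _ => ?_
  rw [← norm_mul]
  congr 1
  ring

theorem TD_image {K : Set ℂ} {d : ℝ} (h : TD K d) (hd : 0 ≤ d) (e : ℂ) (s : ℝ) :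
    TD ((fun z => e + (Real.exp s : ℂ) * z) '' K) (Real.exp s * d) := by
  intro c hc
  have hs := Real.exp_pos s
  have hc0 : 0 < c := lt_of_le_of_lt (mul_nonneg hs.le hd) hc
  obtain ⟨k, hk, hV⟩ := h (c / Real.exp s) (by rwa [lt_div_iff₀ hs, mul_comm])
  refine ⟨k, hk, fun z hz => ?_⟩
  choose w hw hwz using hz
  have e1 : z = fun i => e + (Real.exp s : ℂ) * w i := funext fun i => (hwz i).symm
  rw [e1, norm_det_vandermonde_affine, Complex.norm_real, Real.norm_of_nonneg hs.le]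
  have h1 := hV w hw
  have h2 : c ^ ((k : ℝ) * (k - 1) / 2) =
      Real.exp s ^ ((k : ℝ) * (k - 1) / 2) * (c / Real.exp s) ^ ((k : ℝ) * (k - 1) / 2) := by
    rw [← Real.mul_rpow hs.le (by positivity)]
    congr 1
    field_simp
  rw [h2]
  exact mul_lt_mul_of_pos_left h1 (Real.rpow_pos_of_pos hs _)

/-! ### the scaled statement -/

/-- the circle theorem at the last touching level -/
def Scaled : Prop :=
  ∀ (n : ℕ) (s : ℝ) (b : Fin n → ℂ) (r₀ : ℝ), 0 < n → 0 < s → 0 < r₀ → r₀ < 4 →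
    (∀ r, 0 < r → Nz b r ≤ Nv r) → Nz b r₀ = Nv r₀ → (∀ j, ‖b j‖ < 4) →
    ∏ j, ‖b j‖ ≤ Real.exp (-(n * s)) → (∃ j, ‖b j‖ < r₀) → (∃ j, r₀ < ‖b j‖) →
    (∀ z : ℂ, ‖z‖ = r₀ → 1 ≤ ‖∏ j, (z - b j)‖) ∧
    TD {z | ‖∏ j, (z - b j)‖ ≤ Real.exp (-(n * s)) ∧ ‖z‖ < r₀} (r₀ / 4 * Real.exp (-s)) ∧
    TD {z | ‖∏ j, (z - b j)‖ ≤ Real.exp (-(n * s)) ∧ r₀ < ‖z‖} ((1 - r₀ / 4) * Real.exp (-s))

theorem circle_of_scaled (h : Scaled) : CircleThm := by
  intro f e hf hn0 he h2
  have hn : 0 < f.natDegree := Nat.pos_of_ne_zero hn0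
  have hnR : (0 : ℝ) < f.natDegree := by exact_mod_cast hn
  obtain ⟨s, b, r₀, hs, hr0, hr4, hle, heq, hb4, hprod, hev, hin, hout⟩ := level hf hn0 he h2
  obtain ⟨h3, hA, hB⟩ := h _ s b r₀ hn hs hr0 hr4 hle heq hb4 hprod hin hout
  have hes := Real.exp_pos s
  -- the inverse of `w ↦ e + e^s w`
  have hsurj : ∀ z : ℂ, ∃ w : ℂ, z = e + (Real.exp s : ℂ) * w ∧ ‖z - e‖ = Real.exp s * ‖w‖ := by
    intro z
    have hne : (Real.exp s : ℂ) ≠ 0 := by exact_mod_cast hes.ne'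
    refine ⟨(z - e) / (Real.exp s : ℂ), ?_, ?_⟩
    · field_simp
      ring
    · rw [norm_div, Complex.norm_real, Real.norm_of_nonneg hes.le]
      field_simp
  have hzero : ∀ j, f.eval (e + (Real.exp s : ℂ) * b j) = 0 := by
    intro j
    rw [← norm_eq_zero, hev, norm_eq_zero.2, mul_zero]
    exact Finset.prod_eq_zero (Finset.mem_univ j) (sub_self _)
  have hdist : ∀ w : ℂ, ‖e + (Real.exp s : ℂ) * w - e‖ = Real.exp s * ‖w‖ := by
    intro w
    rw [add_sub_cancel_left, norm_mul, Complex.norm_real, Real.norm_of_nonneg hes.le]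
  have hsub : ∀ w : ℂ, ‖f.eval (e + (Real.exp s : ℂ) * w)‖ ≤ 1 →
      ‖∏ j, (w - b j)‖ ≤ Real.exp (-(f.natDegree * s)) := by
    intro w hw
    rw [hev] at hw
    rw [Real.exp_neg, ← one_div, le_div_iff₀ (Real.exp_pos _), mul_comm]
    exact hw
  refine ⟨r₀ * Real.exp s, r₀ / 4, by positivity, by positivity, by linarith, ?_, ?_, ?_, ?_, ?_⟩
  · intro z hz
    obtain ⟨w, rfl, hw⟩ := hsurj z
    rw [hw, mul_comm] at hz
    have hw0 : ‖w‖ = r₀ := mul_right_cancel₀ hes.ne' hz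
    rw [hev]
    have h5 := h3 w hw0
    have h6 : 1 < Real.exp (f.natDegree * s) := Real.one_lt_exp_iff.2 (mul_pos hnR hs)
    nlinarith
  · obtain ⟨j, hj⟩ := hin
    refine ⟨_, hzero j, ?_⟩
    rw [hdist, mul_comm]
    exact mul_lt_mul_of_pos_right hj hes
  · obtain ⟨j, hj⟩ := hout
    refine ⟨_, hzero j, ?_⟩
    rw [hdist, mul_comm]
    exact mul_lt_mul_of_pos_left hj hes
  · refine (TD_image hA (by positivity) e s).mono ?_ (le_of_eq ?_)
    · rintro z ⟨hz1, hz2⟩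
      obtain ⟨w, rfl, hw⟩ := hsurj z
      refine ⟨w, ⟨hsub w hz1, ?_⟩, rfl⟩
      have hz3 : ‖e + (Real.exp s : ℂ) * w - e‖ < r₀ * Real.exp s := hz2
      rw [hw, mul_comm] at hz3
      exact lt_of_mul_lt_mul_right hz3 hes.le
    · rw [mul_comm, mul_assoc, ← Real.exp_add]
      simp
  · refine (TD_image hB (mul_nonneg (by linarith) (Real.exp_pos _).le) e s).mono ?_ (le_of_eq ?_)
    · rintro z ⟨hz1, hz2⟩
      obtain ⟨w, rfl, hw⟩ := hsurj z
      refine ⟨w, ⟨hsub w hz1, ?_⟩, rfl⟩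
      have hz3 : r₀ * Real.exp s < ‖e + (Real.exp s : ℂ) * w - e‖ := hz2
      rw [hw, mul_comm] at hz3
      exact lt_of_mul_lt_mul_left hz3 hes.le
    · rw [mul_comm, mul_assoc, ← Real.exp_add]
      simp

open N460a421b in
/-- the frozen statement S06849 from the scaled statement -/
theorem main_of_scaled (h : Scaled) (f : ℂ[X]) (hf : f.Monic) (hn0 : f.natDegree ≠ 0) :
    ∃ (ι : Type), Nonempty (BoundedDiscCover {z | ‖f.eval z‖ ≤ 1} 2 ι) :=
  main_of_circle (circle_of_scaled h) f hf hn0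

end Pool.Agent.H44.EH
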