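import Pool.Agent.H44.EH.Sca
import Pool.Agent.H60.EH.PDd

/-!
# EHP (MP_ff60c2_an, S06849): from level `0` to level `-s`

`Level0`: at the last touching level `Q = ∏ (X - b j)` satisfies `|Q| ≥ 1` on `|z| = r₀`, and for every `σ > 0` the parts of
`{|Q| ≤ e^{-nσ}}` inside and outside the circle have transfinite diameters `≤ r₀/4`, `≤ 1 - r₀/4`.
`scaled_of_level0 : Level0 → Scaled` (passing down, `td_pass_down` of helper60).
-/

set_option autoImplicit false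

open Polynomial Complex MeasureTheory Set
open scoped Real ComplexConjugate
open Pool.Agent.H88.LE
open Pool.Agent.H56.EH (Nv Nz)

noncomputable section

namespace Pool.Agent.H44.EH

/-- the circle theorem at the last touching level, without gain -/
def Level0 : Prop :=
  ∀ (n : ℕ) (b : Fin n → ℂ) (r₀ : ℝ), 0 < n → 0 < r₀ → r₀ < 4 →
    (∀ r, 0 < r → Nz b r ≤ Nv r) → Nz b r₀ = Nv r₀ → (∀ j, ‖b j‖ < 4) →
    ∏ j, ‖b j‖ < 1 → (∃ j, ‖b j‖ < r₀) → (∃ j, r₀ < ‖b j‖) →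
    (∀ z : ℂ, ‖z‖ = r₀ → 1 ≤ ‖∏ j, (z - b j)‖) ∧
    ∀ σ : ℝ, 0 < σ →
      TD {z | ‖∏ j, (z - b j)‖ ≤ Real.exp (-(n * σ)) ∧ ‖z‖ < r₀} (r₀ / 4) ∧
      TD {z | ‖∏ j, (z - b j)‖ ≤ Real.exp (-(n * σ)) ∧ r₀ < ‖z‖} (1 - r₀ / 4)

/-- passing down from the level `-σ` to the level `-s` -/
theorem td_down {n : ℕ} (hn : 0 < n) (b : Fin n → ℂ) {s σ : ℝ} (hσs : σ < s) {P P' : Set ℂ}
    (hP : IsOpen P) (hP' : IsOpen P') (hd : Disjoint P P')
    (hcov : ∀ z, ‖∏ j, (z - b j)‖ ≤ Real.exp (-(n * σ)) → z ∈ P ∪ P') {d : ℝ} (hd0 : 0 < d)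
    (hne : ∃ j, b j ∈ P)
    (hT : TD {z | ‖∏ j, (z - b j)‖ ≤ Real.exp (-(n * σ)) ∧ z ∈ P} d) :
    TD {z | ‖∏ j, (z - b j)‖ ≤ Real.exp (-(n * s)) ∧ z ∈ P} (d * Real.exp (-(s - σ))) := by
  have hnR : (0 : ℝ) < n := by exact_mod_cast hn
  obtain ⟨l, hl⟩ : ∃ l : ℝ, l = Real.exp s := ⟨_, rfl⟩
  have hl0 : 0 < l := by rw [hl]; exact Real.exp_pos s
  have hlC : (l : ℂ) ≠ 0 := by exact_mod_cast hl0.ne'
  obtain ⟨f, hf⟩ : ∃ f : ℂ[X], f = ∏ j, (X - C ((l : ℂ) * b j)) := ⟨_, rfl⟩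
  have hfm : f.Monic := by
    rw [hf]
    exact monic_prod_of_monic _ _ fun i _ => monic_X_sub_C _
  have hfd : f.natDegree = n := by
    rw [hf, natDegree_prod_of_monic _ _ fun i _ => monic_X_sub_C _]
    simp only [natDegree_X_sub_C, Finset.sum_const, Finset.card_univ, Fintype.card_fin,
      smul_eq_mul, mul_one]
  have hev : ∀ w : ℂ, ‖f.eval ((l : ℂ) * w)‖ = Real.exp (n * s) * ‖∏ j, (w - b j)‖ := by
    intro w
    rw [hf, eval_prod, norm_prod, norm_prod, Real.exp_nat_mul, ← hl]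
    have e1 : l ^ n = ∏ _j : Fin n, l := by simp
    rw [e1, ← Finset.prod_mul_distrib]
    refine Finset.prod_congr rfl fun j _ => ?_
    have e2 : (X - C ((l : ℂ) * b j)).eval ((l : ℂ) * w) = (l : ℂ) * (w - b j) := by
      rw [eval_sub, eval_X, eval_C]
      ring
    rw [e2, norm_mul, Complex.norm_real, Real.norm_of_nonneg hl0.le]
  -- the scaled open sets
  obtain ⟨O, hO⟩ : ∃ O : Set ℂ, O = {z | (l : ℂ)⁻¹ * z ∈ P} := ⟨_, rfl⟩
  obtain ⟨O', hO'⟩ : ∃ O' : Set ℂ, O' = {z | (l : ℂ)⁻¹ * z ∈ P'} := ⟨_, rfl⟩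
  have hcont : Continuous fun z : ℂ => (l : ℂ)⁻¹ * z := by fun_prop
  have hinv : ∀ z : ℂ, (l : ℂ) * ((l : ℂ)⁻¹ * z) = z := fun z => by
    rw [← mul_assoc, mul_inv_cancel₀ hlC, one_mul]
  have hinv' : ∀ z : ℂ, (l : ℂ)⁻¹ * ((l : ℂ) * z) = z := fun z => by
    rw [← mul_assoc, inv_mul_cancel₀ hlC, one_mul]
  obtain ⟨r, hr⟩ : ∃ r : ℝ, r = Real.exp (n * (s - σ)) := ⟨_, rfl⟩
  have hr1 : 1 < r := by
    rw [hr, Real.one_lt_exp_iff]
    exact mul_pos hnR (by linarith)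
  have hlev : ∀ w : ℂ, ‖f.eval ((l : ℂ) * w)‖ ≤ r ↔ ‖∏ j, (w - b j)‖ ≤ Real.exp (-(n * σ)) := by
    intro w
    rw [hev, hr]
    have e1 : Real.exp (n * (s - σ)) = Real.exp (n * s) * Real.exp (-(n * σ)) := by
      rw [← Real.exp_add]
      congr 1
      ring
    rw [e1]
    exact mul_le_mul_iff_right₀ (Real.exp_pos _)
  have hlev1 : ∀ w : ℂ, ‖f.eval ((l : ℂ) * w)‖ ≤ 1 ↔ ‖∏ j, (w - b j)‖ ≤ Real.exp (-(n * s)) := by
    intro w
    rw [hev]
    have e1 : (1 : ℝ) = Real.exp (n * s) * Real.exp (-(n * s)) := by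
      rw [← Real.exp_add]
      simp
    rw [e1]
    exact mul_le_mul_iff_right₀ (Real.exp_pos _)
  have hS : Sep f r O O' := by
    refine ⟨?_, ?_, ?_, ?_⟩
    · rw [hO]; exact hP.preimage hcont
    · rw [hO']; exact hP'.preimage hcont
    · rw [Set.disjoint_left] at hd ⊢
      intro z hz hz'
      rw [hO] at hz
      rw [hO'] at hz'
      exact hd hz hz'
    · intro z hz
      have h1 : ‖f.eval ((l : ℂ) * ((l : ℂ)⁻¹ * z))‖ ≤ r := by
        rw [hinv]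
        exact hz
      rcases hcov _ ((hlev _).1 h1) with h | h
      · left; rw [hO]; exact h
      · right; rw [hO']; exact h
  have hk : (lem f 1 ∩ O).Nonempty := by
    obtain ⟨j, hj⟩ := hne
    refine ⟨(l : ℂ) * b j, ?_, ?_⟩
    · change ‖f.eval ((l : ℂ) * b j)‖ ≤ 1
      rw [hlev1, norm_eq_zero.2 (Finset.prod_eq_zero (Finset.mem_univ j) (sub_self _))]
      exact (Real.exp_pos _).le
    · rw [hO]
      change (l : ℂ)⁻¹ * ((l : ℂ) * b j) ∈ P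
      rw [hinv']
      exact hj
  have hT1 : TD (lem f r ∩ O) (Real.exp s * d) := by
    refine (TD_image hT hd0.le 0 s).mono ?_ le_rfl
    rintro z ⟨hz1, hz2⟩
    rw [hO] at hz2
    refine ⟨(l : ℂ)⁻¹ * z, ⟨?_, hz2⟩, ?_⟩
    · refine (hlev _).1 ?_
      rw [hinv]
      exact hz1
    · change 0 + (Real.exp s : ℂ) * ((l : ℂ)⁻¹ * z) = z
      rw [← hl, hinv, zero_add]
  have hT2 := Pool.Agent.H60.EH.td_pass_down hfm hfd hn hr1 hS hk (mul_pos (Real.exp_pos s) hd0) hT1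
  have hT3 := TD_image hT2 (by positivity) 0 (-s)
  refine hT3.mono ?_ (le_of_eq ?_)
  · rintro z ⟨hz1, hz2⟩
    refine ⟨(l : ℂ) * z, ⟨(hlev1 z).2 hz1, ?_⟩, ?_⟩
    · rw [hO]
      change (l : ℂ)⁻¹ * ((l : ℂ) * z) ∈ P
      rw [hinv']
      exact hz2
    · change 0 + (Real.exp (-s) : ℂ) * ((l : ℂ) * z) = z
      rw [Real.exp_neg, ← hl, Complex.ofReal_inv, hinv', zero_add]
  · have e1 : r ^ (-(1 : ℝ) / n) = Real.exp (-(s - σ)) := by
      rw [hr, ← Real.exp_mul]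
      congr 1
      field_simp
    rw [e1]
    have e2 : Real.exp (-s) * Real.exp s = 1 := by
      rw [← Real.exp_add]
      simp
    calc Real.exp (-s) * (Real.exp s * d * Real.exp (-(s - σ))) =
        (Real.exp (-s) * Real.exp s) * (d * Real.exp (-(s - σ))) := by ring
      _ = _ := by rw [e2, one_mul]

theorem td_down_lim {n : ℕ} (hn : 0 < n) (b : Fin n → ℂ) {s : ℝ} (hs : 0 < s) {P P' : Set ℂ}
    (hP : IsOpen P) (hP' : IsOpen P') (hd : Disjoint P P')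
    (hcov : ∀ σ, 0 < σ → ∀ z, ‖∏ j, (z - b j)‖ ≤ Real.exp (-(n * σ)) → z ∈ P ∪ P') {d : ℝ} (hd0 : 0 < d)
    (hne : ∃ j, b j ∈ P)
    (hT : ∀ σ, 0 < σ → TD {z | ‖∏ j, (z - b j)‖ ≤ Real.exp (-(n * σ)) ∧ z ∈ P} d) :
    TD {z | ‖∏ j, (z - b j)‖ ≤ Real.exp (-(n * s)) ∧ z ∈ P} (d * Real.exp (-s)) := by
  refine TD_of_forall_gt fun d' hd' => ?_
  have hq : 1 < d' / (d * Real.exp (-s)) := by
    rw [lt_div_iff₀ (by positivity), one_mul]
    exact hd'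
  obtain ⟨σ, hσ⟩ : ∃ σ : ℝ, σ = min (s / 2) (Real.log (d' / (d * Real.exp (-s)))) := ⟨_, rfl⟩
  have hσ0 : 0 < σ := by
    rw [hσ]
    exact lt_min (by linarith) (Real.log_pos hq)
  have hσs : σ < s := by
    rw [hσ]
    exact lt_of_le_of_lt (min_le_left _ _) (by linarith)
  refine (td_down hn b hσs hP hP' hd (hcov σ hσ0) hd0 hne (hT σ hσ0)).mono Subset.rfl ?_
  have h1 : Real.exp σ ≤ d' / (d * Real.exp (-s)) := by
    rw [← Real.le_log_iff_exp_le (by linarith), hσ]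
    exact min_le_right _ _
  rw [le_div_iff₀ (by positivity)] at h1
  refine le_trans (le_of_eq ?_) h1
  have e1 : Real.exp (-(s - σ)) = Real.exp (-s) * Real.exp σ := by
    rw [← Real.exp_add]
    congr 1
    ring
  rw [e1]
  ring

theorem scaled_of_level0 (h : Level0) : Scaled := by
  intro n s b r₀ hn hs hr0 hr4 hle heq hb4 hprod hin hout
  have hnR : (0 : ℝ) < n := by exact_mod_cast hn
  have hlt : ∀ σ : ℝ, 0 < σ → Real.exp (-(n * σ)) < 1 := by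
    intro σ hσ
    rw [Real.exp_lt_one_iff]
    have := mul_pos hnR hσ
    linarith
  obtain ⟨hc, hTD⟩ := h n b r₀ hn hr0 hr4 hle heq hb4 (hprod.trans_lt (hlt s hs)) hin hout
  have hA : IsOpen {z : ℂ | ‖z‖ < r₀} := isOpen_lt (by fun_prop) (by fun_prop)
  have hB : IsOpen {z : ℂ | r₀ < ‖z‖} := isOpen_lt (by fun_prop) (by fun_prop)
  have hdis : Disjoint {z : ℂ | ‖z‖ < r₀} {z : ℂ | r₀ < ‖z‖} := by
    rw [Set.disjoint_left]
    intro z hz hz'
    exact lt_asymm (show ‖z‖ < r₀ from hz) (show r₀ < ‖z‖ from hz')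
  have hcov : ∀ σ : ℝ, 0 < σ → ∀ z : ℂ, ‖∏ j, (z - b j)‖ ≤ Real.exp (-(n * σ)) →
      ‖z‖ < r₀ ∨ r₀ < ‖z‖ := by
    intro σ hσ z hz
    rcases lt_trichotomy ‖z‖ r₀ with h1 | h1 | h1
    · exact Or.inl h1
    · have h2 := hc z h1
      have h3 := hlt σ hσ
      linarith
    · exact Or.inr h1
  refine ⟨hc, ?_, ?_⟩
  · exact td_down_lim hn b hs hA hB hdis (fun σ hσ z hz => hcov σ hσ z hz) (by positivity) hin
      (fun σ hσ => (hTD σ hσ).1)
  · exact td_down_lim hn b hs hB hA hdis.symm (fun σ hσ z hz => (hcov σ hσ z hz).symm)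
      (by linarith) hout (fun σ hσ => (hTD σ hσ).2)

open N460a421b in
/-- the frozen statement S06849 from the statement at the last touching level -/
theorem main_of_level0 (h : Level0) (f : ℂ[X]) (hf : f.Monic) (hn0 : f.natDegree ≠ 0) :
    ∃ (ι : Type), Nonempty (BoundedDiscCover {z | ‖f.eval z‖ ≤ 1} 2 ι) :=
  main_of_scaled (scaled_of_level0 h) f hf hn0

end Pool.Agent.H44.EH
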